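import Pool.Agent.H889R3.SA.Stmts
import Pool.Agent.H572R4.QB.Proc2

set_option autoImplicit false

namespace Pool.Agent.H214R3.SA

open Finset Pool.Agent.H572R2 Pool.Agent.H572R4.QA Pool.Agent.H889R3.SA

theorem taskD : TaskD := by
  intro N f w γ ε T ca m0 K S cr s A i hT hca hm0 hw hi hai
  set M : ℝ := m0 * Real.exp ((5 + 4 * Real.log K) * s) with hM
  have hMpos : 0 < M := by rw [hM]; positivity
  have hp0 : 0 ≤ pp f (th γ ε T) i := by
    unfold pp
    apply EE_nonneg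
    intro x
    unfold JJ
    split_ifs <;> norm_num
  have hY : Yh γ ε T f (A.erase i) + pp f (th γ ε T) i ^ 2 ≤ Yh γ ε T f A := by
    unfold Yh
    have e : ∀ t, ∑ j ∈ A, pp f (th γ ε (t + 1)) j ^ 2
        = ∑ j ∈ A.erase i, pp f (th γ ε (t + 1)) j ^ 2 + pp f (th γ ε (t + 1)) i ^ 2 := by
      intro t
      exact (Finset.sum_erase_add A _ hi).symm
    have e2 : ∑ t ∈ Finset.range T, (1 / 2 : ℝ) ^ (T - 1 - t)
          * ∑ j ∈ A, pp f (th γ ε (t + 1)) j ^ 2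
        = ∑ t ∈ Finset.range T, (1 / 2 : ℝ) ^ (T - 1 - t)
          * ∑ j ∈ A.erase i, pp f (th γ ε (t + 1)) j ^ 2
          + ∑ t ∈ Finset.range T, (1 / 2 : ℝ) ^ (T - 1 - t) * pp f (th γ ε (t + 1)) i ^ 2 := by
      rw [← Finset.sum_add_distrib]
      apply Finset.sum_congr rfl
      intro t _
      rw [e t]
      ring
    have e3 : pp f (th γ ε T) i ^ 2
        ≤ ∑ t ∈ Finset.range T, (1 / 2 : ℝ) ^ (T - 1 - t) * pp f (th γ ε (t + 1)) i ^ 2 := by
      have h1 : (1 / 2 : ℝ) ^ (T - 1 - (T - 1)) * pp f (th γ ε ((T - 1 : ℕ) + 1)) i ^ 2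
          ≤ ∑ t ∈ Finset.range T, (1 / 2 : ℝ) ^ (T - 1 - t) * pp f (th γ ε (t + 1)) i ^ 2 := by
        refine Finset.single_le_sum
          (f := fun t : ℕ => (1 / 2 : ℝ) ^ (T - 1 - t) * pp f (th γ ε (t + 1)) i ^ 2)
          (fun t _ => by positivity) (Finset.mem_range.2 (by omega))
      have h2 : T - 1 + 1 = T := by omega
      simp only [Nat.sub_self, pow_zero, one_mul, h2] at h1
      exact h1
    linarith
  have hS1 : ∑ j ∈ A, EE (dd f j)
      = ∑ j ∈ A.erase i, EE (dd f j) + EE (dd f i) :=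
    (Finset.sum_erase_add A _ hi).symm
  have hS2 : ∑ j ∈ A, EE (w j) = ∑ j ∈ A.erase i, EE (w j) + EE (w i) :=
    (Finset.sum_erase_add A _ hi).symm
  unfold Phi3
  rw [← hM, hS1, hS2]
  set p := pp f (th γ ε T) i with hp
  have hc : 0 < 1 / (4 * ca * M) := by positivity
  have h1 : 1 / (4 * ca * M) * (Yh γ ε T f (A.erase i) + p ^ 2)
      ≤ 1 / (4 * ca * M) * Yh γ ε T f A := by
    apply mul_le_mul_of_nonneg_left hY hc.le
  have h3 : ca * M ≤ ca * EE (w i) := mul_le_mul_of_nonneg_left hai.le hca.le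
  have h4 : p ≤ 1 / (4 * ca * M) * p ^ 2 + ca * M := by
    have h5 : 1 / (4 * ca * M) * p ^ 2 + ca * M - p
        = 1 / (4 * ca * M) * (p - 2 * (ca * M)) ^ 2 := by
      field_simp
      ring
    have h6 : 0 ≤ 1 / (4 * ca * M) * (p - 2 * (ca * M)) ^ 2 := by positivity
    linarith
  nlinarith [h1, h3, h4]

end Pool.Agent.H214R3.SA
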